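import Pool.Agent.Helper843.PK.Main
import Pool.Agent.Helper843.PK.Closed

set_option autoImplicit false
open Real

namespace Pool.Agent.Results.MP_0e91ac_co.P3False

/-- A convex set in the sense of the problem: a nonempty compact convex subset of the plane `ℂ`. -/
def IsConvexSet (K : Set ℂ) : Prop := K.Nonempty ∧ IsCompact K ∧ Convex ℝ K

/-- Support function of a plane set in the direction `(cos θ, sin θ)`. -/
noncomputable def supportFn (K : Set ℂ) (θ : ℝ) : ℝ :=
  sSup ((fun z : ℂ => z.re * cos θ + z.im * sin θ) '' K)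

/-- Perimeter of a nonempty compact convex plane set (Cauchy's formula: the boundary length is the
integral of the support function over all directions; a segment of length `l` gets `2 l`). -/
noncomputable def perimeter (K : Set ℂ) : ℝ := ∫ θ in (0:ℝ)..(2*π), supportFn K θ

/-- The closed disc with centre `c` and radius `R` accommodates the family `K`: rigid motions
`z ↦ a i * z + b i` with `‖a i‖ = 1` (a rotation followed by a translation) carry every `K i` into
the disc, and the interiors of the images are pairwise disjoint. -/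
def Accommodates {k : ℕ} (c : ℂ) (R : ℝ) (K : Fin k → Set ℂ) : Prop :=
  ∃ a b : Fin k → ℂ, (∀ i, ‖a i‖ = 1) ∧
    (∀ i, (fun z => a i * z + b i) '' K i ⊆ Metric.closedBall c R) ∧
    ∀ i j, i ≠ j → Disjoint (interior ((fun z => a i * z + b i) '' K i))
      (interior ((fun z => a j * z + b j) '' K j))

/-- The closed disc of perimeter `1`, i.e. of radius `1/(2π)`, centred at the origin. -/
noncomputable def disc : Set ℂ := Metric.closedBall 0 (1/(2*π))

/-- The statement `(P_k)`: every disc that accommodates `k` discs of perimeter `1` accommodates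
any `k` convex sets of perimeter `1`. -/
def P (k : ℕ) : Prop :=
  ∀ (c : ℂ) (R : ℝ), Accommodates c R (fun _ : Fin k => disc) →
    ∀ K : Fin k → Set ℂ, (∀ i, IsConvexSet (K i) ∧ perimeter (K i) = 1) → Accommodates c R K

/-- The radius `ρ₃ = (1 + 2/√3)/(2π)`. -/
noncomputable def rho3 : ℝ := (1 + 2/√3)/(2*π)

theorem result :
    -- `ρ₃` is the least radius of a disc that accommodates three discs of perimeter `1`
    IsLeast {R : ℝ | ∃ c : ℂ, Accommodates c R (fun _ : Fin 3 => disc)} rho3 ∧
    -- some convex set `K` of perimeter `1` and two discs of perimeter `1` are accommodated by no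
    -- disc of radius `ρ₃`, and not even by a disc of some fixed larger radius `R`
    (∃ K : Set ℂ, IsConvexSet K ∧ perimeter K = 1 ∧ IsConvexSet disc ∧ perimeter disc = 1 ∧
      ∃ R : ℝ, rho3 < R ∧ ∀ (c : ℂ) (R' : ℝ), R' ≤ R → ¬ Accommodates c R' ![K, disc, disc]) ∧
    -- so `(P_3)` is false
    ¬ P 3 := by
  obtain ⟨r, hrd⟩ : ∃ r : ℝ, r = 1/(2*π) := ⟨_, rfl⟩
  have hr : 0 < r := by rw [hrd]; positivity
  have hrho : rho3 = (1+2/√3)*r := by rw [rho3, hrd]; ring
  have hdisc : disc = Metric.closedBall 0 r := by rw [disc, hrd]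
  have himg : ∀ a b : ℂ, ‖a‖ = 1 → (fun z => a * z + b) '' disc = Metric.closedBall b r := by
    intro a b ha
    rw [hdisc]; exact H843PK.image_closedBall a b ha r
  have hleast : IsLeast {R : ℝ | ∃ c : ℂ, Accommodates c R (fun _ : Fin 3 => disc)} rho3 := by
    constructor
    · obtain ⟨b, hb1, hb2⟩ := H843PK.three_upper r hr
      refine ⟨0, fun _ => 1, b, fun _ => norm_one, ?_, ?_⟩
      · intro i
        rw [himg _ _ norm_one, hrho]; exact hb1 i
      · intro i j hij
        rw [himg _ _ norm_one, himg _ _ norm_one]; exact hb2 i j hij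
    · rintro R ⟨c, a, b, ha, hin, hd⟩
      rw [hrho]
      have e : ∀ i, (fun z => a i * z + b i) '' disc = Metric.closedBall (b i) r :=
        fun i => himg _ _ (ha i)
      have hin' : ∀ i, Metric.closedBall (b i) r ⊆ Metric.closedBall c R := fun i => by
        rw [← e i]; exact hin i
      have hd' : ∀ i j, i ≠ j → Disjoint (interior (Metric.closedBall (b i) r))
          (interior (Metric.closedBall (b j) r)) := fun i j hij => by
        rw [← e i, ← e j]; exact hd i j hij
      exact H843PK.three_lower r R hr (b 0) (b 1) (b 2) c (hin' 0) (hin' 1) (hin' 2)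
        (hd' 0 1 (by decide)) (hd' 0 2 (by decide)) (hd' 1 2 (by decide))
  have hK : IsConvexSet (H843PK.body r) := ⟨⟨0, H843PK.body_ball r hr (Metric.mem_ball_self (by positivity))⟩,
    H843PK.body_compact r hr, H843PK.body_convex r⟩
  have h2pr : 2*π*r = 1 := by rw [hrd]; field_simp
  have hKp : perimeter (H843PK.body r) = 1 := (H843PK.body_perimeter r hr).trans h2pr
  have hD : IsConvexSet disc := by
    rw [hdisc]
    exact ⟨⟨0, Metric.mem_closedBall_self hr.le⟩, isCompact_closedBall _ _, convex_closedBall _ _⟩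
  have hDp : perimeter disc = 1 := by
    rw [hdisc]; exact (H843PK.perimeter_closedBall r hr).trans h2pr
  have hnot : ∀ c : ℂ, ¬ Accommodates c rho3 ![H843PK.body r, disc, disc] := by
    rintro c ⟨a, b, ha, hin, hd⟩
    rw [hrho] at hin
    have i0 := hin 0
    have i1 := hin 1
    have i2 := hin 2
    have d01 := hd 0 1 (by decide)
    have d02 := hd 0 2 (by decide)
    have d12 := hd 1 2 (by decide)
    simp only [Matrix.cons_val_zero, Matrix.cons_val_one, Matrix.cons_val] at i0 i1 i2 d01 d02 d12
    rw [himg _ _ (ha 1)] at i1 d01 d12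
    rw [himg _ _ (ha 2)] at i2 d02 d12
    exact H843PK.main r hr (a 0) (b 0) (b 1) (b 2) c (ha 0) i0 i1 i2 d01 d02 d12
  refine ⟨hleast, ⟨H843PK.body r, hK, hKp, hD, hDp, ?_⟩, ?_⟩
  · obtain ⟨R, hR, hRn⟩ := H843PK.not_acc_open rho3 ![H843PK.body r, disc, disc]
      (by intro i; fin_cases i <;> [exact hK.1; exact hD.1; exact hD.1]) (hnot 0)
    refine ⟨R, hR, fun c R' hR' hacc => hRn c ?_⟩
    obtain ⟨a, b, ha, hin, hd⟩ := hacc
    exact ⟨a, b, ha, fun i => (hin i).trans (Metric.closedBall_subset_closedBall hR'), hd⟩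
  · intro hP
    obtain ⟨c, hc⟩ := hleast.1
    refine hnot c (hP c rho3 hc _ ?_)
    intro i
    fin_cases i
    · exact ⟨hK, hKp⟩
    · exact ⟨hD, hDp⟩
    · exact ⟨hD, hDp⟩

end Pool.Agent.Results.MP_0e91ac_co.P3False
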